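import Pool.Agent.H817R5.EP.Stubs

/-!
# Sums over a full period of products of local functions
-/

set_option autoImplicit false

open Finset

namespace Pool.Agent.H793R5.EP

open Pool.Agent.H817R5.EP

/-- two coprime moduli -/
theorem crt_two (M Q : ℕ) (hM : 0 < M) (hQ : 0 < Q) (hco : M.Coprime Q) (F G : ℕ → ℝ)
    (hF : ∀ n, F (n % M) = F n) (hG : ∀ n, G (n % Q) = G n) :
    ∑ y ∈ range (M * Q), F y * G y = (∑ y ∈ range M, F y) * ∑ y ∈ range Q, G y := by
  rw [Finset.sum_mul_sum, ← Finset.sum_product']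
  refine Finset.sum_nbij' (fun y => (y % M, y % Q))
    (fun x => (Nat.chineseRemainder hco x.1 x.2 : ℕ)) ?_ ?_ ?_ ?_ ?_
  · intro y _
    rw [Finset.mem_product, Finset.mem_range, Finset.mem_range]
    exact ⟨Nat.mod_lt _ hM, Nat.mod_lt _ hQ⟩
  · intro x _
    rw [Finset.mem_range]
    exact Nat.chineseRemainder_lt_mul hco x.1 x.2 hM.ne' hQ.ne'
  · intro y hy
    rw [Finset.mem_range] at hy
    have h1 := (Nat.chineseRemainder hco (y % M) (y % Q)).2
    have h2 : (Nat.chineseRemainder hco (y % M) (y % Q) : ℕ) ≡ y [MOD M * Q] := by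
      rw [← Nat.modEq_and_modEq_iff_modEq_mul hco]
      exact ⟨h1.1.trans (Nat.mod_modEq _ _), h1.2.trans (Nat.mod_modEq _ _)⟩
    exact Nat.ModEq.eq_of_lt_of_lt h2
      (Nat.chineseRemainder_lt_mul hco _ _ hM.ne' hQ.ne') hy
  · intro x hx
    rw [Finset.mem_product, Finset.mem_range, Finset.mem_range] at hx
    have h1 := (Nat.chineseRemainder hco x.1 x.2).2
    refine Prod.ext ?_ ?_
    · exact Eq.trans h1.1 (Nat.mod_eq_of_lt hx.1)
    · exact Eq.trans h1.2 (Nat.mod_eq_of_lt hx.2)
  · intro y _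
    show F y * G y = F (y % M) * G (y % Q)
    rw [hF, hG]

/-- CRT: sums over a full period of products of local functions -/
theorem crt : St_CRT := by
  intro P
  induction P using Finset.induction_on with
  | empty =>
    intro f _ _
    simp
  | insert q P hq ih =>
    intro f hp hper
    have ih' := ih f (fun q' h => hp q' (Finset.mem_insert_of_mem h))
      (fun q' h => hper q' (Finset.mem_insert_of_mem h))
    have hqp := hp q (Finset.mem_insert_self _ _)
    have hM : 0 < ∏ q' ∈ P, q' ^ 2 :=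
      Finset.prod_pos fun q' h => pow_pos (hp q' (Finset.mem_insert_of_mem h)).pos 2
    have hQ : 0 < q ^ 2 := pow_pos hqp.pos 2
    have hco : (∏ q' ∈ P, q' ^ 2).Coprime (q ^ 2) := by
      apply Nat.Coprime.prod_left
      intro q' h
      apply Nat.Coprime.pow
      rw [Nat.coprime_primes (hp q' (Finset.mem_insert_of_mem h)) hqp]
      rintro rfl
      exact hq h
    have hF : ∀ n, (fun y => ∏ q' ∈ P, f q' y) (n % ∏ q' ∈ P, q' ^ 2) =
        (fun y => ∏ q' ∈ P, f q' y) n := by
      intro n
      apply Finset.prod_congr rfl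
      intro q' h
      have h1 := hper q' (Finset.mem_insert_of_mem h)
      rw [← h1 (n % _), ← h1 n, Nat.mod_mod_of_dvd _ (Finset.dvd_prod_of_mem _ h)]
    have h2 := crt_two _ _ hM hQ hco (fun y => ∏ q' ∈ P, f q' y) (fun y => f q y) hF
      (hper q (Finset.mem_insert_self _ _))
    rw [Finset.prod_insert hq, Finset.prod_insert hq, mul_comm (q ^ 2), ← ih', mul_comm (∑ y ∈ range (q ^ 2), f q y),
      ← h2]
    apply Finset.sum_congr rfl
    intro y _
    rw [Finset.prod_insert hq, mul_comm]

end Pool.Agent.H793R5.EP
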